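import Pool.Agent.N155.A.PFin

/-!
The Green-Griffiths-Lang conjecture for surfaces with ample canonical bundle and entire curves of
bounded derivative: Zariski dense entire curves of bounded derivative are tangent to all the regular
symmetric differentials, and their derivative is not bounded below.
-/

set_option autoImplicit false

open FF Pool.Agent.W602.GT Pool.Agent.N155 LinearAlgebra.Projectivization

/-- Let `X = {F = 0}` be a smooth projective surface with function field `K`, embedded by
`N`-canonical forms which generate the `N`-canonical sheaf (so the canonical bundle is ample; any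
projective surface with ample canonical bundle has such an embedding).

(1) Every holomorphic map from the complex plane to `X` whose derivative is bounded above and below
by positive constants is algebraically degenerate.

(2) Every holomorphic map from the complex plane to `X` of bounded derivative is algebraically
degenerate, or tangent to every regular symmetric differential of positive degree on `X`.

(3) If for every extension `L` of `K` and every derivation `D : K → L` without nonconstant rational
first integrals there is a regular symmetric differential `σ` of positive degree on `X` with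
`σ(D) ≠ 0`, then every holomorphic map from the complex plane to `X` of bounded derivative is
algebraically degenerate.

(4) The same holds if `X` carries a nonzero regular symmetric differential of the form
`h da₁ ⋯ da_d`, `d > 0`, with rational functions `h` and `a₁`, ..., `a_d`.

(5) The same holds if `X` has a nonconstant rational map to an elliptic curve. -/
theorem Pool.Agent.Results.MP_8d161d_ag.CanonicalSurfaces.result {n : ℕ} {ι : Type}
    (F : ι → MvPolynomial (Fin (n + 1)) ℂ) {K : Type} [Field K] [Algebra ℂ K]
    (y : Fin (n + 1) → K) (hX : SmoothSurface F y) (N : ℕ)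
    (ω : Fin (n + 1) → (Fin 2 → Derivation ℂ K K) → K) (hω : Pluricanonical N ω y) :
    (∀ f : ℂ → ℙ ℂ (Fin (n + 1) → ℂ), HolMap f → (∀ z, (f z).rep ∈ Cone F) → BoundedDer f →
      DerBelow f → Degenerate y f) ∧
    (∀ f : ℂ → ℙ ℂ (Fin (n + 1) → ℂ), HolMap f → (∀ z, (f z).rep ∈ Cone F) → BoundedDer f →
      Degenerate y f ∨ ∀ σ : SymD K, 0 < σ.d → σ.Regular 2 → σ.Tangent y f) ∧
    ((∀ (L : Type) [Field L] [Algebra ℂ L] [Algebra K L] [IsScalarTower ℂ K L]
      (D : Derivation ℂ K L), (∀ k, D k = 0 → ∃ c : ℂ, k = algebraMap ℂ K c) →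
      ∃ σ : SymD K, 0 < σ.d ∧ σ.Regular 2 ∧ σ.app D ≠ 0) →
      ∀ f : ℂ → ℙ ℂ (Fin (n + 1) → ℂ), HolMap f → (∀ z, (f z).rep ∈ Cone F) → BoundedDer f →
        Degenerate y f) ∧
    (∀ (d : ℕ) (h : K) (a : Fin d → K), 0 < d → h ≠ 0 → (∀ l, Transcendental ℂ (a l)) →
      (⟨d, 1, fun _ => h, fun _ => a⟩ : SymD K).Regular 2 →
      ∀ f : ℂ → ℙ ℂ (Fin (n + 1) → ℂ), HolMap f → (∀ z, (f z).rep ∈ Cone F) → BoundedDer f →
        Degenerate y f) ∧
    (∀ (a b : K) (g2 g3 : ℂ), b ^ 2 = 4 * a ^ 3 - algebraMap ℂ K g2 * a - algebraMap ℂ K g3 →
      g2 ^ 3 ≠ 27 * g3 ^ 2 → Transcendental ℂ a →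
      ∀ f : ℂ → ℙ ℂ (Fin (n + 1) → ℂ), HolMap f → (∀ z, (f z).rep ∈ Cone F) → BoundedDer f →
        Degenerate y f) := by
  classical
  refine ⟨fun f hf hfX hb hlow => degenerate_of_below hX hω hf hfX hb hlow,
    fun f hf hfX hb => ?_, fun h f hf hfX hb => degenerate_of_sym hX hω h hf hfX hb,
    fun _ _ _ hd hh ha hreg f hf hfX hb => degenerate_of_prod hX hω hd hh ha hreg hf hfX hb,
    fun _ _ _ _ hab hdisc ha f hf hfX hb => degenerate_of_elliptic hX hω hab hdisc ha hf hfX hb⟩
  by_cases hnd : Degenerate y f
  · exact Or.inl hnd
  · exact Or.inr fun _ hd hreg => tangent_of_nondeg hX hω hf hfX hb hnd hd hreg
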