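import Pool.Agent.N154.TT.AKob

/-!
Projective manifolds with positive 2-forms (for surfaces: with ample canonical bundle) which are
mapped to an abelian variety of any dimension with hyperbolic fibres are Kobayashi hyperbolic modulo
the union of finitely many elliptic curves.
-/

set_option autoImplicit false

open FF LinearAlgebra.Projectivization Pool.Agent.W602.GT Pool.Agent.N154.GG

/-- Let `X = {F = 0}` be a smooth projective variety of dimension `d ≥ 2` with function field `K`
and generic point `y`, whose 2-forms are positive (for example, with ample `Λ² Ω`; for surfaces: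
with ample canonical bundle), and let `α : X → ℂᵐ / Λ` be a holomorphic map to an abelian variety (a
complex torus with a Riemann form `H`) of any dimension `m`, whose fibres are Brody hyperbolic.

Then there is a finite set `S` of nonconstant holomorphic maps `g` from elliptic curves `ℂ / L` to
`X` such that `X` is Kobayashi hyperbolic modulo the union `Ξ` of their images: the Kobayashi
pseudodistance of two different points of `X` is positive unless both of them are in `Ξ`. More
precisely, for every `ε > 0` there is a number `c > 0` such that the Kobayashi pseudodistance of the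
points `p` and `q` of `X` is at least `c D ^ ε min (D, dist p q)` if `D ≤ 1` is at most the distance
of the point `p` from `Ξ`. There is a form `G`, not zero on `X` and zero on `Ξ`; all nonconstant
holomorphic maps `ℂ → X` have their values in the proper closed subset `{G = 0}` of `X`. -/
theorem Pool.Agent.Results.MP_8d161d_ag.KobayashiModuloElliptic.result {n d m : ℕ} {ι : Type}
    (F : ι → MvPolynomial (Fin (n + 1)) ℂ) {K : Type} [Field K] [Algebra ℂ K]
    (y : Fin (n + 1) → K) (hX : SmoothVariety F d y) (hd : 2 ≤ d) {κ : Type}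
    (η : κ → (Fin (n + 1) → ℂ) → (Fin (n + 1) → ℂ) → (Fin (n + 1) → ℂ) → ℂ)
    (hη : PositiveTwoForms (Cone F) d η) (Λ : Submodule ℤ (Fin m → ℂ)) [DiscreteTopology Λ]
    [IsZLattice ℝ Λ] (H : (Fin m → ℂ) → (Fin m → ℂ) → ℂ)
    (hH : Pool.Agent.N154.TT.RiemannForm Λ H) (α : (Fin (n + 1) → ℂ) → (Fin m → ℂ) ⧸ Λ)
    (hα : Pool.Agent.N154.TT.HolToTorus (Cone F) Λ α) (hfib : HyperbolicFibres F α) :
    ∃ S : Set (ℂ → ℙ ℂ (Fin (n + 1) → ℂ)), S.Finite ∧
      (∀ g ∈ S, HolIn F g ∧ (∃ L : PeriodPair, ∀ l ∈ L.lattice, ∀ z, g (z + l) = g z) ∧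
        ∃ v w : Fin m → ℂ, v ≠ 0 ∧ ∀ z : ℂ, α (g z).rep = Submodule.Quotient.mk (z • v + w)) ∧
      (∀ p q : ℙ ℂ (Fin (n + 1) → ℂ), p.rep ∈ Cone F → q.rep ∈ Cone F → p ≠ q →
        (∀ g ∈ S, ∀ z, p ≠ g z) ∨ (∀ g ∈ S, ∀ z, q ≠ g z) → 0 < kobayashi (Cone F) p q) ∧
      (∀ ε : ℝ, 0 < ε → ∃ c : ℝ, 0 < c ∧ ∀ p q : ℙ ℂ (Fin (n + 1) → ℂ), p.rep ∈ Cone F →
        q.rep ∈ Cone F → ∀ D : ℝ, 0 ≤ D → D ≤ 1 → (∀ g ∈ S, ∀ z, D ≤ projDist p (g z)) →
          ENNReal.ofReal (c * D ^ ε * min D (projDist p q)) ≤ kobayashi (Cone F) p q) ∧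
      ∃ G : MvPolynomial (Fin (n + 1)) ℂ, IsForm G ∧ val y G ≠ 0 ∧
        (∀ g ∈ S, ∀ z, val (g z).rep G = 0) ∧
        ∀ f, HolIn F f → (∀ z w, f z = f w) ∨ ∀ z, val (f z).rep G = 0 :=
  Pool.Agent.N154.TT.kob_mod hX hd hη hH hα hfib
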