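import Mathlib
import Pool.Agent.N626.Id

set_option autoImplicit false

/-!
# Entire curves given by linear difference equations: rational curves of bounded degree, or bounded
periods

We consider the entire curves `f : ℂ → X` in a closed subset `X` of complex projective `n`-space which
have homogeneous coordinates `g_j = f_j / w` (`f_j`, `w` entire) with linear difference equations
`∑_{i ≤ r} a_i(z) g_j(z + i) = 0`, where the coefficients `a_i(z)` are polynomials in `z` of degree at
most `e` whose coefficients are `1`-periodic entire functions, not all zero (`DiffCurveOf r e F f`).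
There is no condition on the growth of `f`.

**Theorem.** There is a number `B n d r e`, which depends on nothing else, such that:

(1) If `X` is given by (any number of) forms of degree at most `d`, and `f` is such a curve in `X`,
then through every point `f(z)` passes a nonconstant rational curve in `X` of degree at most
`B n d r e`, or `f` is periodic: `f(z + k) = f(z)` in `X` for some `k` with `1 ≤ k ≤ B n d r e`.

(2) If `X` is an integral variety given by forms of degree at most `d` which is not uniruled (for
instance of general type, of positive dimension), then for all `r`, `e` there is one proper closed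
subset `Y = X ∩ {G = 0}` which contains all such curves, except for those which are periodic with a
period `k`, `1 ≤ k ≤ B n d r e`.

(3) If `X` is uniruled, this fails for some `e` even for `r = 1`: for each proper closed subset `Y`
of `X` there is a curve in `X` given by polynomials of degree at most `e` (these satisfy difference
equations of order one and degree at most `e`) which is not contained in `Y` and which has no
period.

The exception in (1) and (2) is necessary for the method and the class: every entire curve with
`f(z + k) = f(z)` satisfies a difference equation of this kind.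

Method: for all `z` outside a countable set the sequence `g_j(z + m)`, `m ≥ 0`, is P-recursive, of
order at most `r` and degree at most `e`. By the uniform theorem for P-recursive sequences of points
on projective varieties (`scalar_core`) all but at most `B` of the points `f(z + m)` are on rational
curves of degree at most `B`. Either this happens for a generic `z`, and then rational curves pass
through all points by specialisation, or for all `z` outside a countable set two of the points
`f(z), …, f(z + B)` are equal.
-/

namespace Pool.Agent.Results.MP_8d161d_ag.UniformDifferenceCurves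

open MvPolynomial Pool.Agent.N626
open Pool.Agent.H533R3.SL (Uniruled)

/-- **Entire curves given by linear difference equations.** -/
theorem result : ∃ B : ℕ → ℕ → ℕ → ℕ → ℕ,
    (∀ (n d r e : ℕ) (ι : Type) (F : ι → MvPolynomial (Fin (n + 1)) ℂ),
      (∀ i, ∃ c, c ≤ d ∧ (F i).IsHomogeneous c) →
      ∀ f : ℂ → Fin (n + 1) → ℂ, DiffCurveOf r e F f →
        (∀ z, f z ≠ 0 → OnRatC (B n d r e) F (f z)) ∨
          ∃ k : ℕ, 1 ≤ k ∧ k ≤ B n d r e ∧ PeriodicCurve f k) ∧
    (∀ (n d : ℕ) (FF : Finset (MvPolynomial (Fin (n + 1)) ℂ)),
      (∀ F ∈ FF, ∃ c, c ≤ d ∧ F.IsHomogeneous c) →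
      (Ideal.span (FF : Set (MvPolynomial (Fin (n + 1)) ℂ))).IsPrime →
      ¬ Uniruled (Ideal.span (FF : Set (MvPolynomial (Fin (n + 1)) ℂ))) → ∀ r e : ℕ,
      ∃ G : MvPolynomial (Fin (n + 1)) ℂ, (∃ c, G.IsHomogeneous c) ∧
        G ∉ Ideal.span (FF : Set (MvPolynomial (Fin (n + 1)) ℂ)) ∧
        ∀ f : ℂ → Fin (n + 1) → ℂ,
          DiffCurveOf r e (fun F : FF => (F : MvPolynomial (Fin (n + 1)) ℂ)) f →
          (∀ z, aeval (f z) G = 0) ∨
            ∃ k : ℕ, 1 ≤ k ∧ k ≤ B n d r e ∧ PeriodicCurve f k) ∧
    (∀ (n : ℕ) (FF : Finset (MvPolynomial (Fin (n + 1)) ℂ)),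
      Uniruled (Ideal.span (FF : Set (MvPolynomial (Fin (n + 1)) ℂ))) →
      ∃ e : ℕ, ∀ G : MvPolynomial (Fin (n + 1)) ℂ, (∃ c, G.IsHomogeneous c) →
        G ∉ Ideal.span (FF : Set (MvPolynomial (Fin (n + 1)) ℂ)) →
        ∃ q : Fin (n + 1) → Polynomial ℂ, (∀ j, (q j).natDegree ≤ e) ∧
          DiffCurveOf 1 e (fun F : FF => (F : MvPolynomial (Fin (n + 1)) ℂ))
            (fun z j => (q j).eval z) ∧
          (¬ ∀ z, aeval (fun j => (q j).eval z) G = 0) ∧
          ∀ k : ℕ, 1 ≤ k → ¬ PeriodicCurve (fun z j => (q j).eval z) k) :=
  ⟨BB, fun _ _ _ _ _ _ hF _ hf => curve_dich hF hf,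
    fun _ _ FF hFF hp hnu r e => strong_curves FF hFF hp hnu r e,
    fun _ FF hu => strong_curves_converse FF hu⟩

end Pool.Agent.Results.MP_8d161d_ag.UniformDifferenceCurves
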